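import Pool.Agent.Lib_helper85.XD.MSdet
import Pool.Agent.Lib_helper18.LD.C

/-!
Extension of scalars: the slices of a multilinear form over `F_2` keep a small rank over every
extension field, up to a factor `2` for each slot.
-/

set_option autoImplicit false

namespace Pool.Agent.Lib_helper85.XD

open Finset
open Pool.Agent.Lib_helper76.LD

theorem x_rank_M (F : Type) [Field F] [Algebra (ZMod 2) F]
    {ι : Type} [Fintype ι] [DecidableEq ι] {n : ℕ}
    (T : MultilinearMap (ZMod 2) (fun _ : ι => Fin n → ZMod 2) (ZMod 2)) (ρ : ℕ)
    (hρ : ∀ (z : ι → Fin n → ZMod 2) (a b : ι), a ≠ b →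
      (Matrix.of fun i j : Fin n => T (Function.update (Function.update z a (Pi.single i 1)) b
        (Pi.single j 1))).rank ≤ ρ) (a b : ι) (hab : a ≠ b) (J : Finset ι) :
    a ∉ J → b ∉ J → ∀ z : ι → Fin n → F,
      (∀ j, j ∉ J → j ≠ a → j ≠ b → ∃ w : Fin n → ZMod 2, z j = fun i => algebraMap (ZMod 2) F (w i)) →
      (c_M (extF F T) a b z).rank ≤ 2 ^ J.card * ρ := by
  classical
  induction J using Finset.induction_on with
  | empty =>
    intro _ _ z hz
    rw [Finset.card_empty, pow_zero, one_mul]
    choose! w hw using fun j => hz j (by simp)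
    set x : ι → Fin n → ZMod 2 := w with hx
    have h1 : c_M (extF F T) a b z = (Matrix.of fun i j : Fin n =>
        T (Function.update (Function.update x a (Pi.single i 1)) b (Pi.single j 1))).map
          (algebraMap (ZMod 2) F) := by
      ext i j
      unfold c_M
      rw [Matrix.of_apply, Matrix.map_apply, Matrix.of_apply, ← extF_coe_pr]
      congr 1
      funext l
      by_cases hlb : l = b
      · subst hlb
        rw [Function.update_self, Function.update_self]
        funext s
        by_cases hs : s = j
        · subst hs; simp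
        · simp [hs]
      · by_cases hla : l = a
        · subst hla
          rw [Function.update_of_ne hlb, Function.update_self, Function.update_of_ne hlb,
            Function.update_self]
          funext s
          by_cases hs : s = i
          · subst hs; simp
          · simp [hs]
        · rw [Function.update_of_ne hlb, Function.update_of_ne hla, Function.update_of_ne hlb,
            Function.update_of_ne hla]
          exact hw l hla hlb
    rw [h1]
    exact (c_rank_map _ _).trans (hρ x a b hab)
  | insert c J hc ih =>
    intro ha hb z hz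
    rw [Finset.mem_insert, not_or] at ha hb
    have hca : c ≠ a := Ne.symm ha.1
    have hcb : c ≠ b := Ne.symm hb.1
    have hzc : z c = ∑ t, z c t • (Pi.single t (1 : F) : Fin n → F) := by
      funext s
      rw [Finset.sum_apply, Finset.sum_eq_single s]
      · simp
      · intro i _ hi
        simp [Ne.symm hi]
      · simp
    have hz2 : z = Function.update z c (∑ t, z c t • (Pi.single t (1 : F) : Fin n → F)) := by
      rw [← hzc, Function.update_eq_self]
    have hsum : c_M (extF F T) a b z =
        ∑ t, z c t • c_M (extF F T) a b (Function.update z c (Pi.single t (1 : F))) := by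
      conv_lhs => rw [hz2]
      exact c_M_sum _ a b c hca hcb z (z c) (fun t => Pi.single t (1 : F))
    rw [hsum, Finset.card_insert_of_notMem hc, pow_succ, mul_comm (2 ^ J.card) 2, mul_assoc]
    refine ms_rank _ (2 ^ J.card * ρ) (fun S => ?_) (z c)
    have hS : ∑ t ∈ S, c_M (extF F T) a b (Function.update z c (Pi.single t (1 : F))) =
        c_M (extF F T) a b (Function.update z c
          (∑ t : Fin n, (if t ∈ S then (1 : F) else 0) • (Pi.single t (1 : F) : Fin n → F))) := by
      rw [c_M_sum _ a b c hca hcb z (fun t => if t ∈ S then (1 : F) else 0)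
        (fun t => Pi.single t (1 : F))]
      rw [← Finset.sum_filter_add_sum_filter_not Finset.univ (fun t => t ∈ S)]
      have e1 : Finset.univ.filter (fun t => t ∈ S) = S := by ext; simp
      rw [e1]
      have e2 : ∑ t ∈ Finset.univ.filter (fun t => t ∉ S), (if t ∈ S then (1 : F) else 0) •
          c_M (extF F T) a b (Function.update z c (Pi.single t (1 : F))) = 0 := by
        refine Finset.sum_eq_zero fun t ht => ?_
        rw [if_neg (Finset.mem_filter.mp ht).2, zero_smul]
      rw [e2, add_zero]
      refine Finset.sum_congr rfl fun t ht => ?_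
      rw [if_pos ht, one_smul]
    rw [hS]
    refine ih ha.2 hb.2 _ fun j hj hja hjb => ?_
    by_cases hjc : j = c
    · subst hjc
      rw [Function.update_self]
      refine ⟨fun i => if i ∈ S then 1 else 0, ?_⟩
      funext s
      rw [Finset.sum_apply, Finset.sum_eq_single s]
      · by_cases h : s ∈ S <;> simp [h]
      · intro i _ hi
        simp [Ne.symm hi]
      · simp
    · rw [Function.update_of_ne hjc]
      exact hz j (by simp [hjc, hj]) hja hjb

theorem extF_minor (F : Type) [Field F] [Algebra (ZMod 2) F]
    {ι : Type} [Fintype ι] [DecidableEq ι] {n : ℕ} (hι : 2 ≤ Fintype.card ι)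
    (T : MultilinearMap (ZMod 2) (fun _ : ι => Fin n → ZMod 2) (ZMod 2)) (ρ : ℕ)
    (hρ : ∀ (z : ι → Fin n → ZMod 2) (a b : ι), a ≠ b →
      (Matrix.of fun i j : Fin n => T (Function.update (Function.update z a (Pi.single i 1)) b
        (Pi.single j 1))).rank ≤ ρ)
    (z : ι → Fin n → F) (a b : ι) (hab : a ≠ b)
    (p q : Fin (2 ^ (Fintype.card ι - 2) * ρ + 1) → Fin n → F) :
    (Matrix.of fun i j => extF F T (Function.update (Function.update z a (p i)) b (q j))).det
      = 0 := by
  classical
  set J : Finset ι := (Finset.univ.erase a).erase b with hJ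
  have hJc : J.card = Fintype.card ι - 2 := by
    rw [hJ, Finset.card_erase_of_mem (by simp [Ne.symm hab]), Finset.card_erase_of_mem (by simp),
      Finset.card_univ]
    omega
  have hrank := x_rank_M F T ρ hρ a b hab J (by simp [hJ]) (by simp [hJ]) z
    (fun j hj hja hjb => absurd (by simp [hJ, hja, hjb]) hj)
  rw [hJc] at hrank
  set S := c_M (extF F T) a b z with hS
  have hvec : ∀ u : Fin n → F, u = ∑ l, u l • (Pi.single l (1 : F) : Fin n → F) := by
    intro u
    funext s
    rw [Finset.sum_apply, Finset.sum_eq_single s]
    · simp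
    · intro i _ hi
      simp [Ne.symm hi]
    · simp
  have hfac : (Matrix.of fun i j => extF F T (Function.update (Function.update z a (p i)) b (q j))) =
      (Matrix.of p) * S * (Matrix.of q).transpose := by
    ext i j
    rw [Matrix.of_apply]
    conv_lhs => rw [hvec (q j)]
    rw [MultilinearMap.map_update_sum, Matrix.mul_apply]
    refine Finset.sum_congr rfl fun l _ => ?_
    rw [MultilinearMap.map_update_smul, Function.update_comm hab]
    conv_lhs => rw [hvec (p i)]
    rw [MultilinearMap.map_update_sum, Matrix.mul_apply, Matrix.transpose_apply, Matrix.of_apply,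
      smul_eq_mul, mul_comm]
    congr 1
    refine Finset.sum_congr rfl fun s _ => ?_
    rw [MultilinearMap.map_update_smul, Matrix.of_apply, smul_eq_mul, Function.update_comm hab.symm]
    rfl
  by_contra hdet
  have h1 := Matrix.rank_of_det_ne_zero hdet
  rw [Fintype.card_fin, hfac] at h1
  have h2 : ((Matrix.of p) * S * (Matrix.of q).transpose).rank ≤ S.rank :=
    (Matrix.rank_mul_le_left _ _).trans (Matrix.rank_mul_le_right _ _)
  omega

/-- The extension of a symmetric form is symmetric. -/
theorem extF_symm (F : Type) [Field F] [Algebra (ZMod 2) F]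
    {ι : Type} [Fintype ι] [DecidableEq ι] {n : ℕ}
    (T : MultilinearMap (ZMod 2) (fun _ : ι => Fin n → ZMod 2) (ZMod 2))
    (hT : ∀ (σ : Equiv.Perm ι) (x : ι → Fin n → ZMod 2), T (fun j => x (σ j)) = T x)
    (σ : Equiv.Perm ι) (x : ι → Fin n → F) :
    extF F T (fun j => x (σ j)) = extF F T x := by
  classical
  unfold extF
  rw [_root_.sum_apply, _root_.sum_apply]
  rw [← Equiv.sum_comp (Equiv.arrowCongr σ.symm (Equiv.refl (Fin n)))]
  refine Finset.sum_congr rfl fun r _ => ?_
  rw [smul_apply, smul_apply, MultilinearMap.compLinearMap_apply,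
    MultilinearMap.compLinearMap_apply, MultilinearMap.mkPiAlgebra_apply,
    MultilinearMap.mkPiAlgebra_apply]
  congr 1
  · exact congrArg (algebraMap (ZMod 2) F) (hT σ (fun j => Pi.single (r j) 1))
  · rw [← Equiv.prod_comp σ (fun j => (LinearMap.proj (r j) : (Fin n → F) →ₗ[F] F) (x j))]
    refine Finset.prod_congr rfl fun j _ => ?_
    simp [Equiv.arrowCongr]

end Pool.Agent.Lib_helper85.XD
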