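import Pool.Agent.Lib_helper85.XD.Main

/-!
The final statement: `f (x + y) + u (x) + v (y)`, `f` a polynomial of degree at most `d`.
-/

set_option autoImplicit false

namespace Pool.Agent.Lib_helper85.XD

open Finset
open Pool.Agent.Lib_helper76.LD
open Pool.Agent.Lib_helper10.LogRank

/-- The protocol with the opposite output. -/
def pneg {X Y : Type} : Protocol X Y → Protocol X Y
  | .leaf b => .leaf (!b)
  | .alice s t₀ t₁ => .alice s (pneg t₀) (pneg t₁)
  | .bob s t₀ t₁ => .bob s (pneg t₀) (pneg t₁)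

theorem pneg_eval {X Y : Type} (π : Protocol X Y) (x : X) (y : Y) :
    (pneg π).eval x y = !(π.eval x y) := by
  induction π with
  | leaf b => rfl
  | alice s t₀ t₁ h₀ h₁ =>
    by_cases h : s x <;> simp [pneg, Protocol.eval, h, h₀, h₁]
  | bob s t₀ t₁ h₀ h₁ =>
    by_cases h : s y <;> simp [pneg, Protocol.eval, h, h₀, h₁]

theorem pneg_cost {X Y : Type} (π : Protocol X Y) : (pneg π).cost = π.cost := by
  induction π with
  | leaf b => rfl
  | alice s t₀ t₁ h₀ h₁ => simp [pneg, Protocol.cost, h₀, h₁]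
  | bob s t₀ t₁ h₀ h₁ => simp [pneg, Protocol.cost, h₀, h₁]

/-- **XOR functions of degree at most `d`.** -/
theorem final_xor (n d : ℕ) (f : MvPolynomial (Fin n) (ZMod 2)) (hf : f.totalDegree ≤ d)
    (u v : (Fin n → ZMod 2) → ZMod 2)
    (F : (Fin n → ZMod 2) → (Fin n → ZMod 2) → Bool)
    (hF : ∀ x y, F x y = true ↔ MvPolynomial.eval (x + y) f + u x + v y = 1)
    (G : Matrix (Fin n → ZMod 2) (Fin n → ZMod 2) ℝ)
    (hG : ∀ x y, (F x y = true → 0 < G x y) ∧ (F x y = false → G x y < 0)) :
    ∃ π : Protocol (Fin n → ZMod 2) (Fin n → ZMod 2), (∀ x y, π.eval x y = F x y) ∧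
      π.cost ≤ 4 ^ (d + 1) * ((Nat.log 2 G.rank + 1) *
        (d + 1 + Nat.log 2 (Nat.log 2 G.rank + 1))) := by
  classical
  set g : (Fin n → ZMod 2) → ZMod 2 := fun x => MvPolynomial.eval x f with hg
  have hFd : ∀ x y, F x y = decide (g (x + y) + u x + v y = 1) := by
    intro x y
    rw [Bool.eq_iff_iff, decide_eq_true_iff]
    exact hF x y
  set G' : Matrix (Fin n → ZMod 2) (Fin n → ZMod 2) ℝ :=
    Matrix.diagonal (fun x => -sg (u x)) * G * Matrix.diagonal (fun y => sg (v y)) with hG'
  have hG'e : ∀ x y, G' x y = -sg (u x) * G x y * sg (v y) := by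
    intro x y
    rw [hG', Matrix.mul_diagonal, Matrix.diagonal_mul]
  have hrank : G'.rank ≤ G.rank :=
    (Matrix.rank_mul_le_left _ _).trans (Matrix.rank_mul_le_right _ _)
  have hsign : ∀ x y, 0 < sg (g (x + y)) * G' x y := by
    intro x y
    rw [hG'e]
    have e1 : sg (g (x + y)) * (-sg (u x) * G x y * sg (v y)) =
        -(sg (g (x + y) + u x + v y) * G x y) := by
      rw [sg_add, sg_add]
      ring
    rw [e1]
    obtain ⟨h1, h0⟩ := hG x y
    rw [hFd] at h1 h0
    rcases z2_cases (g (x + y) + u x + v y) with h | h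
    · rw [h, sg_zero, one_mul]
      have := h0 (by rw [h]; rfl)
      linarith
    · have e : sg 1 = -1 := by simp [sg]
      rw [h, e]
      have := h1 (by rw [h]; rfl)
      linarith
  obtain ⟨B, ⟨π, hπ1, hπ2⟩, hB⟩ := xor_bound n d g (lowDeg_mvPolynomial f d hf) G' hsign
  refine ⟨.alice (fun x => decide (u x = 1))
    (.bob (fun y => decide (v y = 1)) π (pneg π))
    (.bob (fun y => decide (v y = 1)) (pneg π) π), ?_, ?_⟩
  · intro x y
    rw [hFd]
    have h2 : ∀ a b c : ZMod 2, (if decide (b = 1) = true then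
        if decide (c = 1) = true then decide (a = 1) else !(decide (a = 1))
        else if decide (c = 1) = true then !(decide (a = 1)) else decide (a = 1)) =
          decide (a + b + c = 1) := by decide
    rw [← h2]
    simp only [Protocol.eval, pneg_eval, hπ1]
  · have hc : Protocol.cost (.alice (fun x => decide (u x = 1))
        (.bob (fun y => decide (v y = 1)) π (pneg π))
        (.bob (fun y => decide (v y = 1)) (pneg π) π)) = π.cost + 2 := by
      simp [Protocol.cost, pneg_cost]
    rw [hc]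
    have hmono : 4 ^ (d + 1) * ((Nat.log 2 G'.rank + 1) *
        (d + 1 + Nat.log 2 (Nat.log 2 G'.rank + 1))) ≤
        4 ^ (d + 1) * ((Nat.log 2 G.rank + 1) *
        (d + 1 + Nat.log 2 (Nat.log 2 G.rank + 1))) := by
      have h1 : Nat.log 2 G'.rank ≤ Nat.log 2 G.rank := Nat.log_mono_right hrank
      have h2 : Nat.log 2 (Nat.log 2 G'.rank + 1) ≤ Nat.log 2 (Nat.log 2 G.rank + 1) :=
        Nat.log_mono_right (by omega)
      exact Nat.mul_le_mul_left _ (Nat.mul_le_mul (by omega) (by omega))
    omega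

end Pool.Agent.Lib_helper85.XD
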