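import Mathlib

/-!
Linear combinations of matrices: if all the subset sums of `M_1, ..., M_n` have rank at most `ρ`,
then all the linear combinations have rank at most `2 ρ`.
-/

set_option autoImplicit false

namespace Pool.Agent.Lib_helper85.XD

open MvPolynomial

section mult

variable {F : Type} [Field F]

/-- The substitution `X ↦ X + a`. -/
noncomputable def Sh {n : ℕ} (a : Fin n → F) :
    MvPolynomial (Fin n) F →ₐ[F] MvPolynomial (Fin n) F :=
  aeval fun i => X i + C (a i)

theorem Sh_X {n : ℕ} (a : Fin n → F) (i : Fin n) : Sh a (X i) = X i + C (a i) := by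
  rw [Sh, aeval_X]

theorem Sh_C {n : ℕ} (a : Fin n → F) (c : F) : Sh a (C c) = C c := by
  rw [Sh, aeval_C]
  rfl

theorem fse_C {n : ℕ} (c : F) : finSuccEquiv F n (C c) = Polynomial.C (C c) := by
  rw [finSuccEquiv_apply, eval₂Hom_C]
  rfl

theorem fse_Sh {n : ℕ} (z : F) (a : Fin n → F) (P : MvPolynomial (Fin (n + 1)) F) :
    finSuccEquiv F n (Sh (Fin.cons z a) P) =
      Polynomial.taylor (C z) ((finSuccEquiv F n P).map
        (Sh a : MvPolynomial (Fin n) F →+* MvPolynomial (Fin n) F)) := by
  induction P using MvPolynomial.induction_on with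
  | C c =>
    rw [Sh_C, fse_C, Polynomial.map_C, Polynomial.taylor_C]
    simp
  | add p q hp hq => rw [map_add, map_add, hp, hq, map_add, Polynomial.map_add, map_add]
  | mul_X p i hp =>
    rw [map_mul, map_mul, hp, map_mul, Polynomial.map_mul, Polynomial.taylor_mul]
    congr 1
    rw [Sh_X, map_add, fse_C]
    refine Fin.cases ?_ (fun j => ?_) i
    · rw [finSuccEquiv_X_zero, Fin.cons_zero, Polynomial.map_X, Polynomial.taylor_X]
    · rw [finSuccEquiv_X_succ, Fin.cons_succ, Polynomial.map_C, Polynomial.taylor_C]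
      simp [Sh_X]

theorem half_poly (q : Polynomial F) (hq : q ≠ 0) : ∃ z : F, (z = 0 ∨ z = 1) ∧
    ∃ i : ℕ, (Polynomial.taylor z q).coeff i ≠ 0 ∧ 2 * i ≤ q.natDegree := by
  classical
  by_contra hcon
  push Not at hcon
  set k : ℕ := q.natDegree / 2 + 1 with hk
  have h : ∀ z : F, (z = 0 ∨ z = 1) → (Polynomial.X - Polynomial.C z) ^ k ∣ q := by
    intro z hz
    rw [Polynomial.X_sub_C_pow_dvd_iff, Polynomial.X_pow_dvd_iff]
    intro d hd
    by_contra hne
    have := hcon z hz d (by rw [Polynomial.taylor_apply]; exact hne)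
    omega
  have h0 := h 0 (Or.inl rfl)
  have h1 := h 1 (Or.inr rfl)
  have hcop : IsCoprime ((Polynomial.X - Polynomial.C (0 : F)) ^ k)
      ((Polynomial.X - Polynomial.C (1 : F)) ^ k) :=
    (Polynomial.isCoprime_X_sub_C_of_isUnit_sub (by simp)).pow
  have hdvd := hcop.mul_dvd h0 h1
  have hdeg := Polynomial.natDegree_le_of_dvd hdvd hq
  rw [Polynomial.natDegree_mul (pow_ne_zero _ (Polynomial.X_sub_C_ne_zero _))
    (pow_ne_zero _ (Polynomial.X_sub_C_ne_zero _)), Polynomial.natDegree_pow,
    Polynomial.natDegree_pow, Polynomial.natDegree_X_sub_C, Polynomial.natDegree_X_sub_C] at hdeg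
  omega

/-- The coefficients of `s` in the coefficients of a polynomial over `F[X_1, .., X_n]`. -/
noncomputable def slP {n : ℕ} (s : Fin n →₀ ℕ) (p : Polynomial (MvPolynomial (Fin n) F)) :
    Polynomial F :=
  ∑ j ∈ Finset.range (p.natDegree + 1), Polynomial.monomial j (coeff s (p.coeff j))

theorem slP_coeff {n : ℕ} (s : Fin n →₀ ℕ) (p : Polynomial (MvPolynomial (Fin n) F)) (j : ℕ) :
    (slP s p).coeff j = coeff s (p.coeff j) := by
  rw [slP, Polynomial.finsetSum_coeff]
  by_cases hj : j ∈ Finset.range (p.natDegree + 1)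
  · rw [Finset.sum_eq_single j]
    · simp
    · intro b _ hb
      rw [Polynomial.coeff_monomial, if_neg hb]
    · intro h
      exact absurd hj h
  · rw [Finset.sum_eq_zero]
    · rw [Polynomial.coeff_eq_zero_of_natDegree_lt (by simpa using hj)]
      simp
    · intro b hb
      rw [Polynomial.coeff_monomial, if_neg]
      rintro rfl
      exact hj hb

theorem slP_natDegree {n : ℕ} (s : Fin n →₀ ℕ) (p : Polynomial (MvPolynomial (Fin n) F)) :
    (slP s p).natDegree ≤ p.natDegree := by
  rw [Polynomial.natDegree_le_iff_coeff_eq_zero]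
  intro j hj
  rw [slP_coeff, Polynomial.coeff_eq_zero_of_natDegree_lt hj, coeff_zero]

theorem slP_taylor {n : ℕ} (s : Fin n →₀ ℕ) (p : Polynomial (MvPolynomial (Fin n) F)) (z : F)
    (i : ℕ) : coeff s ((Polynomial.taylor (C z) p).coeff i) =
      (Polynomial.taylor z (slP s p)).coeff i := by
  rw [Polynomial.taylor_coeff, Polynomial.taylor_coeff]
  rw [Polynomial.eval_eq_sum_range' (n := p.natDegree + 1)
    (lt_of_le_of_lt (Polynomial.natDegree_hasseDeriv_le p i) (by omega))]
  rw [Polynomial.eval_eq_sum_range' (n := p.natDegree + 1)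
    (lt_of_le_of_lt (Polynomial.natDegree_hasseDeriv_le (slP s p) i)
      (by have := slP_natDegree s p; omega))]
  rw [coeff_sum]
  refine Finset.sum_congr rfl fun j _ => ?_
  rw [Polynomial.hasseDeriv_coeff, Polynomial.hasseDeriv_coeff, slP_coeff, ← C_pow, mul_comm,
    coeff_C_mul, ← nsmul_eq_mul, ← nsmul_eq_mul, coeff_smul, mul_comm]

/-- A polynomial which is not zero has low order at a point of the cube `{0,1}^n`. -/
theorem half_order : ∀ (n : ℕ) (P : MvPolynomial (Fin n) F), P ≠ 0 →
    ∃ a : Fin n → F, (∀ i, a i = 0 ∨ a i = 1) ∧ ∃ s : Fin n →₀ ℕ,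
      coeff s (Sh a P) ≠ 0 ∧ 2 * s.degree ≤ P.totalDegree := by
  intro n
  induction n with
  | zero =>
    intro P hP
    refine ⟨Fin.elim0, fun i => i.elim0, 0, ?_, ?_⟩
    · obtain ⟨c, rfl⟩ := C_surjective (R := F) (Fin 0) P
      rw [Sh_C, coeff_zero_C]
      rintro rfl
      exact hP (by simp)
    · simp
  | succ n ih =>
    intro P hP
    set p := finSuccEquiv F n P with hp
    have hp0 : p ≠ 0 := by
      rw [hp]
      exact (map_ne_zero_iff _ (finSuccEquiv F n).injective).mpr hP
    set t := p.natDegree with ht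
    have hlc : p.coeff t ≠ 0 := by
      rw [ht]
      exact Polynomial.leadingCoeff_ne_zero.mpr hp0
    obtain ⟨a', ha', s', hs', hd'⟩ := ih (p.coeff t) hlc
    have hdeg : (p.coeff t).totalDegree + t ≤ P.totalDegree :=
      totalDegree_coeff_finSuccEquiv_add_le P t hlc
    set p' := p.map (Sh a' : MvPolynomial (Fin n) F →+* MvPolynomial (Fin n) F) with hp'
    set q := slP s' p' with hq
    have hqt : q.coeff t ≠ 0 := by
      rw [hq, slP_coeff, hp', Polynomial.coeff_map]
      exact hs'
    have hq0 : q ≠ 0 := by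
      intro h
      rw [h] at hqt
      exact hqt (Polynomial.coeff_zero t)
    have hqd : q.natDegree ≤ t := (slP_natDegree s' p').trans (Polynomial.natDegree_map_le)
    obtain ⟨z, hz, i, hi, hi2⟩ := half_poly q hq0
    refine ⟨Fin.cons z a', ?_, s'.cons i, ?_, ?_⟩
    · intro j
      refine Fin.cases ?_ (fun j => ?_) j
      · rw [Fin.cons_zero]
        exact hz
      · rw [Fin.cons_succ]
        exact ha' j
    · rw [← finSuccEquiv_coeff_coeff, fse_Sh, slP_taylor]
      exact hi
    · have : (s'.cons i).degree = i + s'.degree := by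
        rw [Finsupp.degree_eq_sum, Finsupp.degree_eq_sum, Fin.sum_univ_succ]
        simp
      rw [this]
      omega

end mult

end Pool.Agent.Lib_helper85.XD
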