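import Pool.Agent.Lib_helper85.XD.MS

/-!
Linear combinations of matrices: if all the subset sums of `M_1, ..., M_n` have rank at most `ρ`,
then all the linear combinations have rank at most `2 ρ`. The determinants.
-/

set_option autoImplicit false

namespace Pool.Agent.Lib_helper85.XD

open MvPolynomial

section det

variable {F : Type} [Field F]

/-- The generic linear combination. -/
noncomputable def gm {n R : ℕ} (M : Fin n → Matrix (Fin R) (Fin R) F) :
    Matrix (Fin R) (Fin R) (MvPolynomial (Fin n) F) :=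
  Matrix.of fun i j => ∑ l, X l * C (M l i j)

theorem gm_hom {n R : ℕ} (M : Fin n → Matrix (Fin R) (Fin R) F) (i j : Fin R) :
    (gm M i j).IsHomogeneous 1 := by
  rw [gm, Matrix.of_apply]
  refine IsHomogeneous.sum _ _ _ fun l _ => ?_
  exact (isHomogeneous_X F l).mul (isHomogeneous_C _ _)

/-- The rows in `S` are those of the constant matrix `N`, the others those of `A`. -/
noncomputable def pc {n R : ℕ} (S : Finset (Fin R)) (N : Matrix (Fin R) (Fin R) F)
    (A : Matrix (Fin R) (Fin R) (MvPolynomial (Fin n) F)) :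
    Matrix (Fin R) (Fin R) (MvPolynomial (Fin n) F) :=
  Matrix.of fun i j => if i ∈ S then C (N i j) else A i j

theorem pc_apply {n R : ℕ} (S : Finset (Fin R)) (N : Matrix (Fin R) (Fin R) F)
    (A : Matrix (Fin R) (Fin R) (MvPolynomial (Fin n) F)) (i j : Fin R) :
    pc S N A i j = if i ∈ S then C (N i j) else A i j := rfl

theorem pc_sum {n R : ℕ} (N : Matrix (Fin R) (Fin R) F)
    (A : Matrix (Fin R) (Fin R) (MvPolynomial (Fin n) F)) :
    (N.map C + A).det = ∑ S : Finset (Fin R), (pc S N A).det := by
  classical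
  have hexp := (Matrix.detRowAlternating (n := Fin R)
    (R := MvPolynomial (Fin n) F)).toMultilinearMap.map_add_univ (fun i => (N.map C) i)
      (fun i => A i)
  have h2 : (N.map C + A).det = ∑ S : Finset (Fin R),
      Matrix.det (Matrix.of (S.piecewise (fun i => (N.map C) i) (fun i => A i))) := hexp
  rw [h2]
  refine Finset.sum_congr rfl fun S _ => ?_
  congr 1
  ext1 i j
  rw [Matrix.of_apply, pc_apply]
  by_cases h : i ∈ S
  · rw [Finset.piecewise_eq_of_mem _ _ _ h, if_pos h]
    rfl
  · rw [Finset.piecewise_eq_of_notMem _ _ _ h, if_neg h]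

theorem piece_hom {n R : ℕ} (N : Matrix (Fin R) (Fin R) F)
    (A : Matrix (Fin R) (Fin R) (MvPolynomial (Fin n) F)) (hA : ∀ i j, (A i j).IsHomogeneous 1)
    (S : Finset (Fin R)) :
    ((pc S N A).det).IsHomogeneous (R - S.card) := by
  classical
  rw [Matrix.det_apply]
  refine IsHomogeneous.sum _ _ _ fun σ _ => ?_
  have h1 : (∏ i, pc S N A (σ i) i).IsHomogeneous (R - S.card) := by
    have h2 : (∏ i, pc S N A (σ i) i).IsHomogeneous
        (∑ i, if σ i ∈ S then 0 else 1) := by
      refine IsHomogeneous.prod _ _ _ fun i _ => ?_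
      rw [pc_apply]
      by_cases h : σ i ∈ S
      · rw [if_pos h, if_pos h]
        exact isHomogeneous_C _ _
      · rw [if_neg h, if_neg h]
        exact hA _ _
    have h3 : (∑ i, if σ i ∈ S then 0 else 1) = R - S.card := by
      rw [Equiv.sum_comp σ (fun i => if i ∈ S then 0 else 1)]
      have h4 : (∑ i : Fin R, if i ∈ S then 0 else 1) = (Finset.univ.filter fun i => i ∉ S).card := by
        rw [Finset.card_filter]
        refine Finset.sum_congr rfl fun i _ => ?_
        by_cases h : i ∈ S <;> simp [h]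
      rw [h4]
      have h5 : (Finset.univ.filter fun i : Fin R => i ∉ S) = Sᶜ := by
        ext i
        simp
      rw [h5, Finset.card_compl, Fintype.card_fin]
    rwa [h3] at h2
  rcases Int.units_eq_one_or (Equiv.Perm.sign σ) with h | h
  · rw [h, one_smul]
    exact h1
  · rw [h, Units.neg_smul, one_smul]
    exact (homogeneousSubmodule (Fin n) F (R - S.card)).neg_mem h1

theorem piece_dep {n R : ℕ} (N : Matrix (Fin R) (Fin R) F)
    (A : Matrix (Fin R) (Fin R) (MvPolynomial (Fin n) F))
    (S : Finset (Fin R)) (hS : N.rank < S.card) :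
    (pc S N A).det = 0 := by
  classical
  have hdep : ¬ LinearIndependent F (fun i : S => N i.1) := by
    intro h
    have h1 : LinearIndependent F (N.submatrix (fun i : S => i.1) (id : Fin R → Fin R)).row := h
    have h2 := h1.rank_matrix
    have h3 := Matrix.rank_submatrix_le N (fun i : S => i.1) (id : Fin R → Fin R)
    rw [Fintype.card_coe] at h2
    omega
  obtain ⟨g, hg, i, hi⟩ := Fintype.not_linearIndependent_iff.mp hdep
  rw [← Matrix.exists_vecMul_eq_zero_iff]
  refine ⟨fun j => if h : j ∈ S then C (g ⟨j, h⟩) else 0, ?_, ?_⟩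
  · intro h
    have := congrFun h i.1
    simp only [Finset.coe_mem, dite_true, Subtype.coe_eta, Pi.zero_apply] at this
    exact hi (C_injective (Fin n) F (this.trans (C_0).symm))
  · funext c
    rw [Matrix.vecMul, dotProduct, Pi.zero_apply]
    have h1 : ∀ j : Fin R, (if h : j ∈ S then C (g ⟨j, h⟩) else 0) *
        pc S N A j c =
        if h : j ∈ S then (C (g ⟨j, h⟩ * N j c) : MvPolynomial (Fin n) F) else 0 := by
      intro j
      by_cases h : j ∈ S
      · rw [dif_pos h, dif_pos h, pc_apply, if_pos h, C_mul]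
      · rw [dif_neg h, dif_neg h, zero_mul]
    rw [Finset.sum_congr rfl fun j _ => h1 j]
    have h2 := congrFun hg c
    rw [Finset.sum_apply, Pi.zero_apply] at h2
    simp only [Pi.smul_apply, smul_eq_mul] at h2
    have h3 : (∑ j : Fin R, if h : j ∈ S then (C (g ⟨j, h⟩ * N j c) : MvPolynomial (Fin n) F) else 0)
        = ∑ j : S, C (g j * N j.1 c) := by
      rw [← Finset.sum_subset (Finset.subset_univ S)]
      · rw [← Finset.sum_coe_sort S]
        refine Finset.sum_congr rfl fun j _ => ?_
        rw [dif_pos j.2]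
      · intro j _ hj
        rw [dif_neg hj]
    rw [h3, ← map_sum, h2, C_0]

theorem ms_det {n R : ℕ} (M : Fin n → Matrix (Fin R) (Fin R) F) (ρ : ℕ)
    (hρ : ∀ S : Finset (Fin n), (∑ i ∈ S, M i).rank ≤ ρ) (hR : 2 * ρ < R) :
    (gm M).det = 0 := by
  classical
  by_contra hne
  obtain ⟨a, ha, s, hs, hd⟩ := half_order n _ hne
  have htd : (gm M).det.totalDegree ≤ R := by
    have h := piece_hom (0 : Matrix (Fin R) (Fin R) F) (gm M) (gm_hom M) ∅
    have h1 : pc ∅ 0 (gm M) = gm M := by
      ext1 i j
      rw [pc_apply, if_neg (by simp)]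
    rw [h1, Finset.card_empty, Nat.sub_zero] at h
    exact h.totalDegree_le
  apply hs
  set N : Matrix (Fin R) (Fin R) F := ∑ i ∈ Finset.univ.filter (fun i => a i = 1), M i with hN
  have hmap : (Sh a).mapMatrix (gm M) = N.map C + gm M := by
    ext1 i j
    rw [AlgHom.mapMatrix_apply, Matrix.map_apply, Matrix.add_apply, Matrix.map_apply, gm,
      Matrix.of_apply, map_sum]
    have h1 : (C (N i j) : MvPolynomial (Fin n) F) = ∑ l, C (a l) * C (M l i j) := by
      rw [hN, Matrix.sum_apply, map_sum, Finset.sum_filter]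
      refine Finset.sum_congr rfl fun l _ => ?_
      rcases ha l with h | h
      · rw [h, if_neg (by simp), C_0, zero_mul]
      · rw [h, if_pos rfl, C_1, one_mul]
    rw [h1, ← Finset.sum_add_distrib]
    refine Finset.sum_congr rfl fun l _ => ?_
    rw [map_mul, Sh_X, Sh_C]
    ring
  rw [AlgHom.map_det, hmap, pc_sum, coeff_sum]
  refine Finset.sum_eq_zero fun S _ => ?_
  by_cases hS : N.rank < S.card
  · rw [piece_dep N (gm M) S hS, coeff_zero]
  · refine (piece_hom N (gm M) (gm_hom M) S).coeff_eq_zero ?_
    have h1 : N.rank ≤ ρ := hρ _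
    omega

/-- **Linear combinations of matrices.** -/
theorem ms_rank {n m m' : ℕ} (M : Fin n → Matrix (Fin m) (Fin m') F) (ρ : ℕ)
    (hρ : ∀ S : Finset (Fin n), (∑ i ∈ S, M i).rank ≤ ρ) (x : Fin n → F) :
    (∑ i, x i • M i).rank ≤ 2 * ρ := by
  classical
  by_contra hcon
  push Not at hcon
  set N : Matrix (Fin m) (Fin m') F := ∑ i, x i • M i with hN
  set R : ℕ := 2 * ρ + 1 with hR
  -- independent vectors in the column space
  obtain ⟨y, hy⟩ : ∃ y : Fin R → LinearMap.range N.mulVecLin, LinearIndependent F y := by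
    have h1 : R ≤ Module.finrank F (LinearMap.range N.mulVecLin) := hcon
    obtain ⟨s, hs1, hs2⟩ := exists_finset_linearIndependent_of_le_finrank h1
    refine ⟨fun i => ((Finset.equivFinOfCardEq hs1).symm i).1, ?_⟩
    exact hs2.comp _ (Equiv.injective _)
  have hy2 : LinearIndependent F (fun j => (y j : Fin m → F)) :=
    hy.map' (Submodule.subtype _) (Submodule.ker_subtype _)
  choose q hq using fun j => (y j).2
  set Q : Matrix (Fin m') (Fin R) F := Matrix.of fun i j => q j i with hQ
  have hNQ : ∀ j, (N * Q).col j = y j := by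
    intro j
    rw [← hq j]
    funext i
    rw [Matrix.col_apply, Matrix.mul_apply]
    rfl
  have hinj : Function.Injective (N * Q).mulVecLin := by
    have h1 : LinearIndependent F (N * Q).col := by
      have : (N * Q).col = fun j => (y j : Fin m → F) := funext hNQ
      rw [this]
      exact hy2
    exact Matrix.mulVec_injective_iff.mpr h1
  obtain ⟨g, hg⟩ := LinearMap.exists_leftInverse_of_injective (N * Q).mulVecLin
    (LinearMap.ker_eq_bot.mpr hinj)
  set P : Matrix (Fin R) (Fin m) F := LinearMap.toMatrix' g with hP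
  have hPNQ : P * (N * Q) = 1 := by
    have h1 := congrArg LinearMap.toMatrix' hg
    rw [LinearMap.toMatrix'_comp, LinearMap.toMatrix'_id] at h1
    have h2 : LinearMap.toMatrix' (N * Q).mulVecLin = N * Q := LinearMap.toMatrix'_toLin' _
    rw [h2] at h1
    exact h1
  -- the square matrices
  have hdet := ms_det (fun i => P * (M i * Q)) ρ (fun S => by
    have h1 : ∑ i ∈ S, P * (M i * Q) = P * ((∑ i ∈ S, M i) * Q) := by
      rw [Matrix.sum_mul, Matrix.mul_sum]
    rw [h1]
    exact (Matrix.rank_mul_le_right _ _).trans ((Matrix.rank_mul_le_left _ _).trans (hρ S)))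
    (by omega)
  have h2 := congrArg (eval x) hdet
  rw [RingHom.map_det, map_zero] at h2
  have h3 : (eval x).mapMatrix (gm fun i => P * (M i * Q)) = 1 := by
    have h4 : (eval x).mapMatrix (gm fun i => P * (M i * Q)) = ∑ i, x i • (P * (M i * Q)) := by
      ext1 i j
      rw [RingHom.mapMatrix_apply, Matrix.map_apply, gm, Matrix.of_apply, map_sum,
        Matrix.sum_apply]
      refine Finset.sum_congr rfl fun l _ => ?_
      rw [map_mul, eval_X, eval_C, Matrix.smul_apply, smul_eq_mul]
    rw [h4, ← hPNQ, hN, Matrix.sum_mul, Matrix.mul_sum]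
    refine Finset.sum_congr rfl fun l _ => ?_
    rw [Matrix.smul_mul, Matrix.mul_smul]
  rw [h3, Matrix.det_one] at h2
  exact one_ne_zero h2

end det

end Pool.Agent.Lib_helper85.XD
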