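import Pool.Agent.Lib_helper83.LD.D2

/-!
A symmetric multilinear form over a large field all of whose 2-slices have rank at most `ρ` vanishes
on the kernel of one slice of maximal rank.
-/

set_option autoImplicit false

namespace Pool.Agent.Lib_helper85.XD

open Finset
open Pool.Agent.Lib_helper76.LD

section symk

variable {F : Type} [Field F] {E : Type} [AddCommGroup E] [Module F E]
  {ι : Type} [DecidableEq ι]

/-- The good predicate for the free slots `J ∋ a, b` and the base point `x₀`. -/
def SGood (T : MultilinearMap F (fun _ : ι => E) F) (x₀ : ι → E) (P : E → Prop)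
    (J : Finset ι) : Prop :=
  ∀ x : ι → E, (∀ j, j ∉ J → x j = x₀ j) → ∀ j₀ ∈ J, (∀ j ∈ J, j ≠ j₀ → P (x j)) → T x = 0

theorem s_stepc [Fintype F] [Fintype ι] (T : MultilinearMap F (fun _ : ι => E) F) (ρ : ℕ)
    (hF : (ρ + 1) * Fintype.card ι + 1 < Fintype.card F)
    (a b : ι) (hab : a ≠ b) (r : ℕ) (hr : r ≤ ρ) (x₀ : ι → E) (p q : Fin r → E)
    (hpq : (Matrix.of fun i j =>
      T (Function.update (Function.update x₀ a (p i)) b (q j))).det ≠ 0)
    (hmax : ∀ (z : ι → E) (p q : Fin (r + 1) → E), (Matrix.of fun i j =>
      T (Function.update (Function.update z a (p i)) b (q j))).det = 0)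
    (P : E → Prop)
    (m : ℕ) (ih : ∀ J' : Finset ι, a ∈ J' → b ∈ J' → J'.card ≤ m → SGood T x₀ P J')
    (J : Finset ι) (haJ : a ∈ J) (hbJ : b ∈ J) (hJ : J.card = m + 1) (c : ι) (hc : c ∈ J)
    (hca : c ≠ a) (hcb : c ≠ b) (x : ι → E) (hx : ∀ j, j ∉ J → x j = x₀ j)
    (hP : ∀ j ∈ J, j ≠ c → P (x j)) : T x = 0 := by
  classical
  have hac : a ≠ c := Ne.symm hca
  have hbc : b ≠ c := Ne.symm hcb
  obtain ⟨S, hSdef⟩ : ∃ S : Finset ι, S = ((J.erase c).erase a).erase b := ⟨_, rfl⟩
  have hSJ : ∀ j ∈ S, j ∈ J := by
    intro j hj
    rw [hSdef] at hj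
    exact Finset.mem_of_mem_erase (Finset.mem_of_mem_erase (Finset.mem_of_mem_erase hj))
  have haS : a ∉ S := by rw [hSdef]; simp
  have hbS : b ∉ S := by rw [hSdef]; simp
  have hcS : c ∉ S := by rw [hSdef]; simp
  have hmemJ : ∀ j, j ∈ J → j ≠ a → j ≠ b → j ≠ c → j ∈ S := by
    intro j hj h1 h2 h3
    rw [hSdef]
    exact Finset.mem_erase.2 ⟨h2, Finset.mem_erase.2 ⟨h1, Finset.mem_erase.2 ⟨h3, hj⟩⟩⟩
  have hScard : S.card + 2 ≤ m := by
    have h0 : (J.erase c).card = m := by rw [Finset.card_erase_of_mem hc, hJ]; omega
    have ha : a ∈ J.erase c := Finset.mem_erase.2 ⟨hac, haJ⟩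
    have hb : b ∈ J.erase c := Finset.mem_erase.2 ⟨hbc, hbJ⟩
    have h1 : ((J.erase c).erase a).card = m - 1 := by
      rw [Finset.card_erase_of_mem ha, h0]
    have h2 : S.card = m - 1 - 1 := by
      rw [hSdef, Finset.card_erase_of_mem (Finset.mem_erase.2 ⟨Ne.symm hab, hb⟩), h1]
    have h3 : 1 < (J.erase c).card := Finset.one_lt_card.2 ⟨a, ha, b, hb, hab⟩
    omega
  have hcardS' : ∀ S' ∈ S.powerset, (insert a (insert b S')).card ≤ m := by
    intro S' hS'
    have hsub := Finset.mem_powerset.1 hS'
    have h1 := Finset.card_insert_le a (insert b S')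
    have h2 := Finset.card_insert_le b S'
    have h3 := Finset.card_le_card hsub
    omega
  have hPP : ∀ S' ∈ S.powerset, SGood T x₀ P (insert a (insert b S')) := fun S' hS' =>
    ih _ (by simp) (by simp) (hcardS' S' hS')
  -- the points `x_τ`
  obtain ⟨xt, hxt⟩ : ∃ xt : F → ι → E,
      xt = fun τ j => if j ∈ S then x₀ j + τ • x j else x₀ j := ⟨_, rfl⟩
  have hxt_c : ∀ τ, xt τ c = x₀ c := by intro τ; rw [hxt]; simp [hcS]
  have hxt0 : xt 0 = x₀ := by rw [hxt]; funext j; simp
  have hform2 : ∀ τ e f, (fun j => if j ∈ S then
      Function.update (Function.update x₀ a e) b f j + τ • x j else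
      Function.update (Function.update x₀ a e) b f j) =
      Function.update (Function.update (xt τ) a e) b f := by
    intro τ e f
    rw [d2_upd S τ x _ b hbS, d2_upd S τ x _ a haS, hxt]
  have hform3 : ∀ τ g e f, (fun j => if j ∈ S then
      Function.update (Function.update (Function.update x₀ c g) a e) b f j + τ • x j else
      Function.update (Function.update (Function.update x₀ c g) a e) b f j) =
      Function.update (Function.update (Function.update (xt τ) c g) a e) b f := by
    intro τ g e f
    rw [d2_upd S τ x _ b hbS, d2_upd S τ x _ a haS, d2_upd S τ x _ c hcS, hxt]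
  -- (i)
  have hi1 : ∀ τ e, T (Function.update (Function.update (xt τ) a (x a)) b e) = 0 := by
    intro τ e
    rw [← hform2, d2_expand]
    refine Finset.sum_eq_zero fun S' hS' => ?_
    have hsub := Finset.mem_powerset.1 hS'
    have haS' : a ∉ S' := fun h => haS (hsub h)
    have hbS' : b ∉ S' := fun h => hbS (hsub h)
    rw [(hPP S' hS') _ ?_ b (by simp) ?_, mul_zero]
    · intro j hj
      simp only [Finset.mem_insert, not_or] at hj
      rw [Finset.piecewise_eq_of_notMem _ _ _ hj.2.2, Function.update_of_ne hj.2.1,
        Function.update_of_ne hj.1]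
    · intro j hj hjb
      rcases Finset.mem_insert.1 hj with h | h
      · subst h
        rw [Finset.piecewise_eq_of_notMem _ _ _ haS', Function.update_of_ne hab,
          Function.update_self]
        exact hP j haJ hac
      · rcases Finset.mem_insert.1 h with h | h
        · exact absurd h hjb
        · rw [Finset.piecewise_eq_of_mem _ _ _ h]
          exact hP j (hSJ j (hsub h)) (fun hjc => hcS (hjc ▸ hsub h))
  have hi2 : ∀ τ e, T (Function.update (Function.update (xt τ) a e) b (x b)) = 0 := by
    intro τ e
    rw [← hform2, d2_expand]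
    refine Finset.sum_eq_zero fun S' hS' => ?_
    have hsub := Finset.mem_powerset.1 hS'
    have haS' : a ∉ S' := fun h => haS (hsub h)
    have hbS' : b ∉ S' := fun h => hbS (hsub h)
    rw [(hPP S' hS') _ ?_ a (by simp) ?_, mul_zero]
    · intro j hj
      simp only [Finset.mem_insert, not_or] at hj
      rw [Finset.piecewise_eq_of_notMem _ _ _ hj.2.2, Function.update_of_ne hj.2.1,
        Function.update_of_ne hj.1]
    · intro j hj hja
      rcases Finset.mem_insert.1 hj with h | h
      · exact absurd h hja
      · rcases Finset.mem_insert.1 h with h | h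
        · subst h
          rw [Finset.piecewise_eq_of_notMem _ _ _ hbS', Function.update_self]
          exact hP j hbJ hbc
        · rw [Finset.piecewise_eq_of_mem _ _ _ h]
          exact hP j (hSJ j (hsub h)) (fun hjc => hcS (hjc ▸ hsub h))
  -- linearity in the slot `c`
  have hlin : ∀ τ σ e f, T (Function.update (Function.update
      (Function.update (xt τ) c (x₀ c + σ • x c)) a e) b f) =
      T (Function.update (Function.update (xt τ) a e) b f) + σ *
      T (Function.update (Function.update (Function.update (xt τ) c (x c)) a e) b f) := by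
    intro τ σ e f
    have hcomm : ∀ g, Function.update (Function.update (Function.update (xt τ) c g) a e) b f =
        Function.update (Function.update (Function.update (xt τ) a e) b f) c g := by
      intro g
      rw [Function.update_comm (Ne.symm hac), Function.update_comm (Ne.symm hbc)]
    rw [hcomm, hcomm, MultilinearMap.map_update_add, MultilinearMap.map_update_smul,
      smul_eq_mul]
    congr 2
    rw [← hxt_c τ]
    have h1 : (xt τ) c = Function.update (Function.update (xt τ) a e) b f c := by
      rw [Function.update_of_ne (Ne.symm hbc), Function.update_of_ne (Ne.symm hac)]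
    rw [h1, Function.update_eq_self]
  -- (ii)
  have hii : ∀ τ, (Matrix.of fun i j =>
      T (Function.update (Function.update (xt τ) a (p i)) b (q j))).det ≠ 0 →
      T (Function.update (Function.update (Function.update (xt τ) c (x c)) a (x a)) b (x b))
        = 0 := by
    intro τ hτ
    refine flanders_pr r ?_ _
      (Matrix.of fun i j => T (Function.update (Function.update
        (Function.update (xt τ) c (x c)) a (p i)) b (q j)))
      (Matrix.of fun i _ => T (Function.update (Function.update
        (Function.update (xt τ) c (x c)) a (p i)) b (x b)))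
      (Matrix.of fun _ j => T (Function.update (Function.update
        (Function.update (xt τ) c (x c)) a (x a)) b (q j))) _ hτ ?_
    · have h1 : 1 ≤ Fintype.card ι := Fintype.card_pos_iff.2 ⟨a⟩
      nlinarith
    · intro σ
      have hmin := d2_minor T r (Function.update (xt τ) c (x₀ c + σ • x c)) a b
        (fun p' q' => hmax _ p' q') p q (x a) (x b)
      rw [← hmin]
      congr 1
      ext i j
      rcases i with i | i <;> rcases j with j | j
      · simp [hlin]
      · simp [hlin, hi2]
      · simp [hlin, hi1]
      · simp [hlin, hi1]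
  -- (iii)
  obtain ⟨A, hA⟩ : ∃ A : Polynomial F, A = (Matrix.of fun i j =>
      d2_poly T S x (Function.update (Function.update x₀ a (p i)) b (q j))).det := ⟨_, rfl⟩
  obtain ⟨R, hR⟩ : ∃ R : Polynomial F, R = d2_poly T S x
      (Function.update (Function.update (Function.update x₀ c (x c)) a (x a)) b (x b)) :=
    ⟨_, rfl⟩
  have hAeval : ∀ τ, A.eval τ = (Matrix.of fun i j =>
      T (Function.update (Function.update (xt τ) a (p i)) b (q j))).det := by
    intro τ
    have h1 := RingHom.map_det (Polynomial.evalRingHom τ) (Matrix.of fun i j =>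
      d2_poly T S x (Function.update (Function.update x₀ a (p i)) b (q j)))
    rw [hA]
    rw [Polynomial.coe_evalRingHom] at h1
    rw [h1]
    congr 1
    ext i j
    simp only [RingHom.mapMatrix_apply, Matrix.map_apply, Matrix.of_apply,
      Polynomial.coe_evalRingHom]
    rw [d2_poly_eval, hform2]
  have hReval : ∀ τ, R.eval τ =
      T (Function.update (Function.update (Function.update (xt τ) c (x c)) a (x a)) b (x b)) := by
    intro τ
    rw [hR, d2_poly_eval, hform3]
  have hA0 : A ≠ 0 := by
    intro h
    apply hpq
    have := hAeval 0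
    rw [h, Polynomial.eval_zero, hxt0] at this
    exact this.symm
  have hAdeg : A.natDegree ≤ r * S.card := by
    rw [hA]
    exact d2_det_natDegree _ _ fun i j => d2_poly_natDegree _ _ _ _
  have hRdeg : R.natDegree ≤ S.card := by
    rw [hR]; exact d2_poly_natDegree _ _ _ _
  have hAR : A * R = 0 := by
    refine Polynomial.eq_zero_of_natDegree_lt_card_of_eval_eq_zero (A * R)
      (f := (id : F → F)) Function.injective_id ?_ ?_
    · intro τ
      rw [id, Polynomial.eval_mul]
      by_cases h : A.eval τ = 0
      · rw [h, zero_mul]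
      · rw [hReval, hii τ (by rw [← hAeval]; exact h), mul_zero]
    · have h1 : (A * R).natDegree ≤ r * S.card + S.card :=
        Polynomial.natDegree_mul_le.trans (by omega)
      have h2 : S.card ≤ Fintype.card ι := Finset.card_le_univ S
      have h3 : r * S.card + S.card ≤ (ρ + 1) * Fintype.card ι := by nlinarith
      omega
  have hR0 : R = 0 := (mul_eq_zero.1 hAR).resolve_left hA0
  have htop := d2_poly_coeff T S x
    (Function.update (Function.update (Function.update x₀ c (x c)) a (x a)) b (x b))
  rw [← hR, hR0, Polynomial.coeff_zero] at htop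
  have hxe : S.piecewise x
      (Function.update (Function.update (Function.update x₀ c (x c)) a (x a)) b (x b)) = x := by
    funext j
    by_cases hjS : j ∈ S
    · rw [Finset.piecewise_eq_of_mem _ _ _ hjS]
    · rw [Finset.piecewise_eq_of_notMem _ _ _ hjS]
      by_cases hjb : j = b
      · subst hjb; rw [Function.update_self]
      · rw [Function.update_of_ne hjb]
        by_cases hja : j = a
        · subst hja; rw [Function.update_self]
        · rw [Function.update_of_ne hja]
          by_cases hjc : j = c
          · subst hjc; rw [Function.update_self]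
          · rw [Function.update_of_ne hjc]
            have hjJ : j ∉ J := fun h => hjS (hmemJ j h hja hjb hjc)
            rw [hx j hjJ]
  rw [hxe] at htop
  exact htop.symm

/-- Exchanging the vectors in the slots `a` and `b`. -/
theorem s_swap [Fintype ι] (T : MultilinearMap F (fun _ : ι => E) F)
    (hsym : ∀ (σ : Equiv.Perm ι) (x : ι → E), T (fun j => x (σ j)) = T x)
    (z : ι → E) (a b : ι) (hab : a ≠ b) (u v : E) :
    T (Function.update (Function.update z a u) b v) =
      T (Function.update (Function.update z a v) b u) := by
  rw [← hsym (Equiv.swap a b) (Function.update (Function.update z a v) b u)]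
  congr 1
  funext j
  by_cases hja : j = a
  · subst hja
    rw [Equiv.swap_apply_left, Function.update_self, Function.update_of_ne hab,
      Function.update_self]
  · by_cases hjb : j = b
    · subst hjb
      rw [Equiv.swap_apply_right, Function.update_self, Function.update_of_ne hab,
        Function.update_self]
    · rw [Equiv.swap_apply_of_ne_of_ne hja hjb, Function.update_of_ne hjb,
        Function.update_of_ne hja, Function.update_of_ne hjb, Function.update_of_ne hja]

/-- **Symmetric forms with slices of small rank.** -/
theorem symK [Fintype F] [Fintype ι] (hι : 2 ≤ Fintype.card ι)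
    (T : MultilinearMap F (fun _ : ι => E) F)
    (hsym : ∀ (σ : Equiv.Perm ι) (x : ι → E), T (fun j => x (σ j)) = T x) (ρ : ℕ)
    (hF : (ρ + 1) * Fintype.card ι + 1 < Fintype.card F)
    (hρ : ∀ (z : ι → E) (a b : ι), a ≠ b → ∀ p q : Fin (ρ + 1) → E,
      (Matrix.of fun i j => T (Function.update (Function.update z a (p i)) b (q j))).det = 0) :
    ∃ φ : E →ₗ[F] (Fin ρ → F),
      ∀ (x : ι → E) (j₀ : ι), (∀ j, j ≠ j₀ → φ (x j) = 0) → T x = 0 := by
  classical
  obtain ⟨a, b, hab⟩ : ∃ a b : ι, a ≠ b := by
    have : 1 < Fintype.card ι := hι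
    exact Fintype.one_lt_card_iff.1 this
  obtain ⟨r, hr, ⟨x₀, p, q, hpq⟩, hmax⟩ := d2_max
    (fun r => ∃ (x₀ : ι → E) (p q : Fin r → E),
      (Matrix.of fun i j => T (Function.update (Function.update x₀ a (p i)) b (q j))).det ≠ 0) ρ
    ⟨0, Fin.elim0, Fin.elim0, by simp⟩ (by
      rintro ⟨x₀, p, q, h⟩
      exact h (hρ x₀ a b hab p q))
  push Not at hmax
  obtain ⟨P, hPdef⟩ : ∃ P : E → Prop, P = fun u =>
      ∀ j, T (Function.update (Function.update x₀ a u) b (q j)) = 0 := ⟨_, rfl⟩
  have hcod : d2_Cod F ρ P := by
    refine d2_cod_of (κ := Fin r) (by simpa using hr) _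
      (LinearMap.pi fun j => T.toLinearMap (Function.update x₀ b (q j)) a) ?_
    intro u hu
    rw [hPdef]
    intro j
    have := congrFun hu j
    simp only [LinearMap.pi_apply, MultilinearMap.toLinearMap_apply, Pi.zero_apply] at this
    rw [Function.update_comm hab]
    exact this
  -- the kernel of the slice
  have hker : ∀ u v, P u → T (Function.update (Function.update x₀ a u) b v) = 0 := by
    intro u v hu
    rw [hPdef] at hu
    have hmin := d2_minor T r x₀ a b (fun p' q' => hmax x₀ p' q') p q u v
    have h0 : (Matrix.of fun (_ : Fin 1) (j : Fin r) =>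
        T (Function.update (Function.update x₀ a u) b (q j))) = 0 := by
      ext i j
      simpa using hu j
    rw [h0, Matrix.det_fromBlocks_zero₂₁] at hmin
    have key : (Matrix.of fun i j =>
        T (Function.update (Function.update x₀ a (p i)) b (q j))).det *
        T (Function.update (Function.update x₀ a u) b v) = 0 := by
      simpa using hmin
    exact (mul_eq_zero.1 key).resolve_left hpq
  have hbase : SGood T x₀ P {a, b} := by
    intro x hx j₀ hj₀ hP
    have hxe : x = Function.update (Function.update x₀ a (x a)) b (x b) := by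
      funext j
      by_cases h1 : j = b
      · subst h1; simp
      · rw [Function.update_of_ne h1]
        by_cases h2 : j = a
        · subst h2; simp
        · rw [Function.update_of_ne h2]
          exact hx j (by simp [h1, h2])
    rw [hxe]
    rcases Finset.mem_insert.1 hj₀ with h | h
    · rw [s_swap T hsym x₀ a b hab]
      exact hker _ _ (hP b (by simp) (by rw [h]; exact Ne.symm hab))
    · have h' := Finset.mem_singleton.1 h
      exact hker _ _ (hP a (by simp) (by rw [h']; exact hab))
  have hmain : ∀ m : ℕ, ∀ J : Finset ι, a ∈ J → b ∈ J → J.card ≤ m → SGood T x₀ P J := by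
    intro m
    induction m with
    | zero =>
      intro J ha hb hJ
      have := Finset.card_pos.2 ⟨a, ha⟩
      omega
    | succ m ih =>
      intro J ha hb hJ
      by_cases hJm : J.card ≤ m
      · exact ih J ha hb hJm
      have hJ' : J.card = m + 1 := by omega
      have hsub : {a, b} ⊆ J := by
        intro j hj
        rcases Finset.mem_insert.1 hj with h | h
        · exact h ▸ ha
        · exact (Finset.mem_singleton.1 h) ▸ hb
      by_cases hJ2 : J = {a, b}
      · rw [hJ2]
        exact hbase
      -- a slot `c` different from `a` and `b`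
      obtain ⟨c, hcJ, hcab⟩ : ∃ c ∈ J, c ∉ ({a, b} : Finset ι) := by
        by_contra hcon
        push Not at hcon
        exact hJ2 (Finset.Subset.antisymm hcon hsub)
      rw [Finset.mem_insert, Finset.mem_singleton, not_or] at hcab
      intro x hx j₀ hj₀ hP
      by_cases hja : j₀ = a
      · subst hja
        rw [← hsym (Equiv.swap j₀ c) x]
        refine s_stepc T ρ hF j₀ b hab r hr x₀ p q hpq hmax P m ih J ha hb hJ' c hcJ hcab.1
          hcab.2 _ ?_ ?_
        · intro j hj
          have h1 : j ≠ j₀ := fun h => hj (h ▸ ha)
          have h2 : j ≠ c := fun h => hj (h ▸ hcJ)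
          rw [Equiv.swap_apply_of_ne_of_ne h1 h2]
          exact hx j hj
        · intro j hj hjc
          by_cases h1 : j = j₀
          · rw [h1, Equiv.swap_apply_left]
            exact hP c hcJ hcab.1
          · rw [Equiv.swap_apply_of_ne_of_ne h1 hjc]
            exact hP j hj h1
      · by_cases hjb : j₀ = b
        · subst hjb
          rw [← hsym (Equiv.swap j₀ c) x]
          refine s_stepc T ρ hF a j₀ hab r hr x₀ p q hpq hmax P m ih J ha hb hJ' c hcJ hcab.1
            hcab.2 _ ?_ ?_
          · intro j hj
            have h1 : j ≠ j₀ := fun h => hj (h ▸ hb)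
            have h2 : j ≠ c := fun h => hj (h ▸ hcJ)
            rw [Equiv.swap_apply_of_ne_of_ne h1 h2]
            exact hx j hj
          · intro j hj hjc
            by_cases h1 : j = j₀
            · rw [h1, Equiv.swap_apply_left]
              exact hP c hcJ hcab.2
            · rw [Equiv.swap_apply_of_ne_of_ne h1 hjc]
              exact hP j hj h1
        · exact s_stepc T ρ hF a b hab r hr x₀ p q hpq hmax P m ih J ha hb hJ' j₀ hj₀ hja hjb
            x hx hP
  obtain ⟨φ, hφ⟩ := hcod
  refine ⟨φ, fun x j₀ hx => ?_⟩
  exact hmain (Fintype.card ι) Finset.univ (Finset.mem_univ a) (Finset.mem_univ b)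
    (by rw [Finset.card_univ]) x (fun j hj => absurd (Finset.mem_univ j) hj) j₀
    (Finset.mem_univ j₀) (fun j _ hne => hφ _ (hx j hne))

end symk

end Pool.Agent.Lib_helper85.XD
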