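import Pool.Agent.Lib_helper85.XD.Ext
import Pool.Agent.Lib_helper85.XD.SymK
import Pool.Agent.Lib_helper55.LD.B2
import Pool.Agent.Lib_helper12.LD.A
import Pool.Agent.Lib_helper59.LDX.E
import Pool.Agent.Lib_helper55.LD.F2
import Pool.Agent.Lib_helper76.LD.Final1

/-!
XOR functions: the logarithm of the sign rank against the deterministic communication complexity,
with a single exponential dependence on the degree.
-/

set_option autoImplicit false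

namespace Pool.Agent.Lib_helper85.XD

open Finset
open Pool.Agent.Lib_helper76.LD
open Pool.Agent.Lib_helper10.LogRank

/-- the bound for the rank of the slices over the extension -/
def rY (D L : ℕ) : ℕ := 2 ^ (D - 2) * (2 ^ (D + 1) * L + 1)

/-- the degree of the extension -/
def kY (D L : ℕ) : ℕ := 2 * D + (D + 1) / 2 + Nat.log 2 L + 1

theorem le_two_pow_half (D : ℕ) (hD : 2 ≤ D) : D ≤ 2 ^ ((D + 1) / 2) := by
  induction D using Nat.strong_induction_on with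
  | _ D ih =>
    by_cases h : D ≤ 3
    · interval_cases D <;> norm_num
    · have h1 := ih (D - 2) (by omega) (by omega)
      have h2 : (D + 1) / 2 = (D - 2 + 1) / 2 + 1 := by omega
      rw [h2, pow_succ]
      omega

theorem rY_le (D L : ℕ) (hD : 2 ≤ D) (hL : 1 ≤ L) : 16 * rY D L ≤ 9 * (4 ^ D * L) := by
  obtain ⟨e, rfl⟩ : ∃ e, D = e + 2 := ⟨D - 2, by omega⟩
  rw [rY, Nat.add_sub_cancel]
  have h1 : (4 : ℕ) ^ (e + 2) = 16 * (2 ^ e * 2 ^ e) := by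
    rw [pow_add, show (4 : ℕ) = 2 * 2 by norm_num, mul_pow]
    ring
  have h2 : (2 : ℕ) ^ (e + 2 + 1) = 8 * 2 ^ e := by
    rw [pow_add, pow_add]
    ring
  rw [h1, h2]
  have h3 : 1 ≤ 2 ^ e := Nat.one_le_two_pow
  have h4 : 2 ^ e ≤ 2 ^ e * 2 ^ e * L := by
    calc 2 ^ e = 2 ^ e * 1 * 1 := by ring
      _ ≤ 2 ^ e * 2 ^ e * L := Nat.mul_le_mul (Nat.mul_le_mul_left _ h3) hL
  nlinarith

theorem size_Y (D L : ℕ) (hD : 2 ≤ D) (hL : 1 ≤ L) :
    (rY D L + 1) * D + 1 < 2 ^ kY D L := by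
  have h1 := rY_le D L hD hL
  have h2 := le_two_pow_half D hD
  have h3 : L + 1 ≤ 2 ^ (Nat.log 2 L + 1) := Nat.lt_pow_succ_log_self (by norm_num) L
  have h4 : 2 ^ kY D L = 4 ^ D * (2 ^ ((D + 1) / 2) * 2 ^ (Nat.log 2 L + 1)) := by
    rw [kY, show (4 : ℕ) = 2 ^ 2 by norm_num, ← pow_mul, ← pow_add, ← pow_add]
    congr 1
    omega
  rw [h4]
  have h5 : 4 ^ D * (D * (L + 1)) ≤ 4 ^ D * (2 ^ ((D + 1) / 2) * 2 ^ (Nat.log 2 L + 1)) :=
    Nat.mul_le_mul_left _ (Nat.mul_le_mul h2 h3)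
  refine lt_of_lt_of_le ?_ h5
  have h6 : 16 ≤ 4 ^ D := by
    calc 16 = 4 ^ 2 := by norm_num
      _ ≤ 4 ^ D := Nat.pow_le_pow_right (by norm_num) hD
  -- `16 ((ρ + 1) D + 1) ≤ 9 · 4^D L D + 16 D + 16 < 16 · 4^D D (L + 1)`
  have h7 : 16 * ((rY D L + 1) * D + 1) ≤ 9 * (4 ^ D * L) * D + 16 * D + 16 := by
    have := Nat.mul_le_mul_right D h1
    nlinarith
  have h8 : 16 * D + 16 < 16 * (4 ^ D * D) := by
    have h9 : 16 * D ≤ 4 ^ D * D := Nat.mul_le_mul_right D h6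
    omega
  have h10 : 9 * (4 ^ D * L) * D ≤ 16 * (4 ^ D * (D * L)) := by
    have : 9 * (4 ^ D * L) * D = 9 * (4 ^ D * (D * L)) := by ring
    rw [this]
    exact Nat.mul_le_mul_right _ (by norm_num)
  have h11 : 16 * (4 ^ D * (D * (L + 1))) = 16 * (4 ^ D * (D * L)) + 16 * (4 ^ D * D) := by ring
  omega

/-- The form of the derivatives is symmetric. -/
theorem der_symm {V : Type*} [AddCommGroup V] {d : ℕ} (f : V → ZMod 2) (σ : Equiv.Perm (Fin d))
    (h : Fin d → V) (x : V) : der f (fun j => h (σ j)) x = der f h x := by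
  classical
  unfold der
  rw [← Equiv.sum_comp (Equiv.finsetCongr σ) (fun S => f (x + ∑ i ∈ S, h i))]
  refine Finset.sum_congr rfl fun S _ => ?_
  congr 2
  rw [Equiv.finsetCongr_apply, Finset.sum_map]
  rfl

/-- The degree drops on the cosets of a subspace of small codimension. -/
theorem degree_dropY (n d L : ℕ) (hL : 1 ≤ L) (f : (Fin n → ZMod 2) → ZMod 2)
    (hf : LowDeg (d + 2) f)
    (G : (Fin n → ZMod 2) → (Fin n → ZMod 2) → ℝ)
    (hG : ∀ x y, 0 < sg (f (x + y)) * G x y) (hr : Fac (2 ^ L) G) :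
    ∃ ψ : (Fin n → ZMod 2) →ₗ[ZMod 2] (Fin (kY (d + 2) L * rY (d + 2) L) → ZMod 2),
      ∀ x₀ : Fin n → ZMod 2, LowDeg (d + 1) (fun x : LinearMap.ker ψ => f (x₀ + x)) := by
  classical
  obtain ⟨T, hT⟩ := exists_form_pr (d + 2) f hf
  have hslice : ∀ (z : Fin (d + 2) → Fin n → ZMod 2) (a b : Fin (d + 2)), a ≠ b →
      (Matrix.of fun i j : Fin n => T (Function.update (Function.update z a (Pi.single i 1)) b
        (Pi.single j 1))).rank ≤ 2 ^ (d + 2 + 1) * L + 1 :=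
    fun z a b hab => slice_rank_sign_pr n (d + 2) L f T hT G hG hr z a b hab
  have hTsym : ∀ (σ : Equiv.Perm (Fin (d + 2))) (x : Fin (d + 2) → Fin n → ZMod 2),
      T (fun j => x (σ j)) = T x := by
    intro σ x
    rw [hT _ 0, hT _ 0]
    exact der_symm f σ x 0
  let k := kY (d + 2) L
  have hk0 : k ≠ 0 := by
    have : 1 ≤ k := by simp [k, kY]
    omega
  let F := GaloisField 2 k
  let _ : Fintype F := Fintype.ofFinite F
  have hfin : Module.finrank (ZMod 2) F = k := GaloisField.finrank 2 hk0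
  have hcard : Fintype.card F = 2 ^ k := by
    rw [Fintype.card_eq_nat_card]
    exact GaloisField.card 2 k hk0
  have hι : 2 ≤ Fintype.card (Fin (d + 2)) := by rw [Fintype.card_fin]; omega
  have hmin := extF_minor F hι T (2 ^ (d + 2 + 1) * L + 1) hslice
  rw [Fintype.card_fin] at hmin
  have hF : (rY (d + 2) L + 1) * Fintype.card (Fin (d + 2)) + 1 < Fintype.card F := by
    rw [hcard, Fintype.card_fin]
    exact size_Y (d + 2) L (by omega) hL
  obtain ⟨φ, hφ⟩ := symK hι (extF F T) (extF_symm F T hTsym) (rY (d + 2) L) hF hmin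
  have hdes := descend_pr F n _ φ
  rw [hfin] at hdes
  obtain ⟨ψ, hψ⟩ := hdes
  refine ⟨ψ, ?_⟩
  intro x₀
  refine lowDeg_restrict_pr (d + 1) f T hT (LinearMap.ker ψ) ?_ x₀
  intro h hh
  have h1 := hφ (fun j i => algebraMap (ZMod 2) F (h j i)) 0 (fun j _ => hψ (h j) (hh j))
  rw [extF_coe_pr] at h1
  exact (map_eq_zero_iff _ (algebraMap (ZMod 2) F).injective).mp h1

/-- Cost for degree `≤ d + 1`. -/
def BY : ℕ → ℕ → ℕ
  | 0, _ => 2
  | d + 1, L => 2 * (kY (d + 2) L * rY (d + 2) L) + BY d L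

theorem xor_allY (L : ℕ) (hL : 1 ≤ L) (d : ℕ) : ∀ (n : ℕ) (f : (Fin n → ZMod 2) → ZMod 2),
    LowDeg (d + 1) f → ∀ G : (Fin n → ZMod 2) → (Fin n → ZMod 2) → ℝ,
    (∀ x y, 0 < sg (f (x + y)) * G x y) → Fac (2 ^ L) G → XorCC f (BY d L) := by
  induction d with
  | zero =>
    intro n f hf G _ _
    exact xor_base_pr n f hf
  | succ d ih =>
    intro n f hf G hG hr
    obtain ⟨ψ, hψ⟩ := degree_dropY n d L hL f hf G hG hr
    have h := xor_step_sign_pr n _ (d + 1) L (BY d L) f G hG hr ψ hψ ih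
    exact h

theorem BY_le (d ℓ : ℕ) : BY d (ℓ + 1) + 2 ≤
    4 ^ (d + 2) * ((ℓ + 1) * (d + 2 + Nat.log 2 (ℓ + 1))) := by
  induction d with
  | zero =>
    rw [BY]
    have : 1 ≤ (ℓ + 1) * (0 + 2 + Nat.log 2 (ℓ + 1)) := Nat.pos_of_ne_zero (by positivity)
    calc 2 + 2 ≤ 4 ^ (0 + 2) * 1 := by norm_num
      _ ≤ _ := Nat.mul_le_mul_left _ this
  | succ d ih =>
    rw [BY]
    set ll := Nat.log 2 (ℓ + 1) with hll
    have h1 := rY_le (d + 2) (ℓ + 1) (by omega) (by omega)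
    have hk : 3 * kY (d + 2) (ℓ + 1) ≤ 8 * (d + 3 + ll) := by
      rw [kY, ← hll]
      omega
    -- `2 k ρ ≤ 3 · 4^(d+2) (ℓ+1) (d+3+ll)`
    have h2 : 2 * (kY (d + 2) (ℓ + 1) * rY (d + 2) (ℓ + 1)) ≤
        3 * (4 ^ (d + 2) * (ℓ + 1)) * (d + 3 + ll) := by
      have h3 := Nat.mul_le_mul hk h1
      have h4 : 3 * kY (d + 2) (ℓ + 1) * (16 * rY (d + 2) (ℓ + 1)) =
          24 * (2 * (kY (d + 2) (ℓ + 1) * rY (d + 2) (ℓ + 1))) := by ring
      have h5 : 8 * (d + 3 + ll) * (9 * (4 ^ (d + 2) * (ℓ + 1))) =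
          24 * (3 * (4 ^ (d + 2) * (ℓ + 1)) * (d + 3 + ll)) := by ring
      rw [h4, h5] at h3
      exact Nat.le_of_mul_le_mul_left h3 (by norm_num)
    have h6 : 4 ^ (d + 1 + 2) * ((ℓ + 1) * (d + 1 + 2 + ll)) =
        3 * (4 ^ (d + 2) * (ℓ + 1)) * (d + 3 + ll) +
          4 ^ (d + 2) * ((ℓ + 1) * (d + 3 + ll)) := by
      rw [show d + 1 + 2 = d + 3 by ring, pow_succ 4 (d + 2)]
      ring
    have h7 : 4 ^ (d + 2) * ((ℓ + 1) * (d + 2 + ll)) ≤
        4 ^ (d + 2) * ((ℓ + 1) * (d + 3 + ll)) :=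
      Nat.mul_le_mul_left _ (Nat.mul_le_mul_left _ (by omega))
    rw [h6]
    omega

/-- XOR functions of degree `≤ d`. -/
theorem xor_bound (n d : ℕ) (f : (Fin n → ZMod 2) → ZMod 2) (hf : LowDeg d f)
    (G : Matrix (Fin n → ZMod 2) (Fin n → ZMod 2) ℝ)
    (hG : ∀ x y, 0 < sg (f (x + y)) * G x y) :
    ∃ B : ℕ, XorCC f B ∧ B + 2 ≤ 4 ^ (d + 1) * ((Nat.log 2 G.rank + 1) *
      (d + 1 + Nat.log 2 (Nat.log 2 G.rank + 1))) := by
  set ℓ := Nat.log 2 G.rank with hℓ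
  have hr : G.rank ≤ 2 ^ (ℓ + 1) := by
    have : G.rank < 2 ^ (ℓ + 1) := Nat.lt_pow_succ_log_self (b := 2) (by norm_num) G.rank
    omega
  have hF : Fac (2 ^ (ℓ + 1)) (fun x y => G x y) := Fac.of_rank G _ hr
  rcases Nat.eq_zero_or_pos d with h0 | h0
  · subst h0
    refine ⟨2, ?_, ?_⟩
    · exact xor_base_pr n f hf.mono_succ
    · have : 1 ≤ (ℓ + 1) * (0 + 1 + Nat.log 2 (ℓ + 1)) := Nat.pos_of_ne_zero (by positivity)
      calc 2 + 2 ≤ 4 ^ (0 + 1) * 1 := by norm_num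
        _ ≤ _ := Nat.mul_le_mul_left _ this
  · obtain ⟨e, rfl⟩ : ∃ e, d = e + 1 := ⟨d - 1, by omega⟩
    exact ⟨_, xor_allY (ℓ + 1) (by omega) e n f hf (fun x y => G x y) hG hF, BY_le e ℓ⟩

end Pool.Agent.Lib_helper85.XD
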